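import Pool.Agent.X183.Gap.B1

/-!
# Submultiplicativity of the growth on a minimal attractor; leaving a repeller
-/

set_option autoImplicit false

open Filter Topology Set Metric

namespace Pool.Agent.X183.Gap

open Pool.Agent.H789R2.AN Pool.Agent.Y330.G

variable {X : Type*} [MetricSpace X]

theorem near_of_mem {A : Set X} {δ : ℝ} (hδ : 0 < δ) {y : X} (hy : y ∈ A) :
    ∃ v ∈ A, dist v y < δ := ⟨y, hy, by rwa [dist_self]⟩

/-- Submultiplicativity of the growth on a minimal attractor. -/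
theorem submult_att [CompactSpace X] [Nonempty X] {g : X ≃ₜ X} {c : ℝ} (h : LP g c) {A : Set X}
    (hA : MinAtt g A) : ∃ K : ℕ, ∀ n m : ℕ, ∀ x ∈ A, ∀ y ∈ A, ∀ z ∈ A,
      P g (c / 4) (c / 2) (n + m) x ≤ K * (P g (c / 4) (c / 2) n y * P g (c / 4) (c / 2) m z) := by
  classical
  have hc := h.c_pos
  obtain ⟨δ₁, hδ₁, C, hC⟩ := growth_near h hA
  have hC' : ∀ n, ∀ x ∈ A, ∀ y ∈ A, P g (c / 4) (c / 2) n x ≤ C * P g (c / 4) (c / 2) n y :=
    fun n x hx y hy => hC n x hx y (near_of_mem hδ₁ hy)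
  obtain ⟨K₁, -, j, h1⟩ := P_gen h (ε := c / 2) (ε' := c / 4) (δ := c / 2) (δ' := c / 2)
    (by linarith) (by linarith) (by linarith) (by linarith) (by linarith) (by linarith)
  obtain ⟨K₂, -, h2⟩ := P_chg h (ε := c / 4) (δ := c / 4) (δ' := c / 2) (by linarith)
    (by linarith) (by linarith) (by linarith)
  refine ⟨K₁ * K₂ * C * C, fun n m x hx y hy z hz => ?_⟩
  obtain ⟨F, hF, h3⟩ := P_att g (c / 4) (show 0 < c / 2 by linarith) (n + m) x
  rw [← h3]
  obtain ⟨F₁, hF₁, hs₁, hmax⟩ := exists_max_sep (g := g) (show (0 : ℝ) ≤ c / 4 by linarith) n F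
  have hFA : ∀ y ∈ F, y ∈ A := fun y hy =>
    hA.1.sat x hx y (WS.of_SR (h.cU _ _ ((hF.1 y hy).mono (by linarith))))
  have hch : ∀ y, ∃ z, y ∈ F → z ∈ F₁ ∧ ∀ k ≤ n, dist (g^[k] y) (g^[k] z) ≤ c / 4 := by
    intro y
    by_cases hy : y ∈ F
    · obtain ⟨z, h1, h2⟩ := hmax y hy
      exact ⟨z, fun _ => ⟨h1, h2⟩⟩
    · exact ⟨y, fun h => absurd h hy⟩
  choose φ hφ using hch
  have h4 : F.card ≤ (K₁ * (C * P g (c / 4) (c / 2) m z)) * F₁.card := by
    refine Finset.card_le_mul_card_image_of_maps_to (f := φ) (fun y hy => (hφ y hy).1) _ ?_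
    intro w hw
    have hinj : Function.Injective (g^[n]) := g.injective.iterate n
    rw [← Finset.card_image_of_injective _ hinj]
    have h5 : (((F.filter fun a => φ a = w).image (g^[n]))).card ≤
        P g (c / 2) (c / 2) m (g^[n] w) := by
      apply P_le (by linarith)
      constructor
      · intro a ha
        obtain ⟨y, hy, rfl⟩ := Finset.mem_image.mp ha
        rw [Finset.mem_filter] at hy
        refine sr_of g (fun i hi => ?_) ?_
        · have h1 := (hφ y hy.1).2 i hi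
          rw [hy.2] at h1
          rw [dist_comm]
          exact h1.trans (by linarith)
        · exact (sr_tr (hF.1 w (hF₁ hw)).symm' (hF.1 y hy.1)).mono (by linarith)
      · intro a ha b hb hab
        obtain ⟨y, hy, rfl⟩ := Finset.mem_image.mp ha
        obtain ⟨y', hy', rfl⟩ := Finset.mem_image.mp hb
        rw [Finset.mem_filter] at hy hy'
        have hne : y ≠ y' := fun e => hab (by rw [e])
        obtain ⟨k, hk, h5⟩ := hF.2 y hy.1 y' hy'.1 hne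
        have hkn : n < k := by
          by_contra hcon
          push Not at hcon
          have h1 := (hφ y hy.1).2 k hcon
          have h2 := (hφ y' hy'.1).2 k hcon
          rw [hy.2] at h1
          rw [hy'.2] at h2
          have := dist_triangle_right (g^[k] y) (g^[k] y') (g^[k] w)
          linarith
        refine ⟨k - n, by omega, ?_⟩
        rw [← Function.iterate_add_apply, ← Function.iterate_add_apply]
        have e : k - n + n = k := by omega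
        rwa [e]
    have hwA : g.symm^[j] (g^[n] w) ∈ A :=
      (inv_iter (inv_symm hA.1.inv) j _).mpr ((inv_iter hA.1.inv n w).mpr (hFA w (hF₁ hw)))
    calc _ ≤ _ := h5
      _ ≤ _ := h1 m (g^[n] w)
      _ ≤ _ := Nat.mul_le_mul_left _ (hC' m _ hwA z hz)
  have h5 : F₁.card ≤ K₂ * (C * P g (c / 4) (c / 2) n y) := by
    calc F₁.card ≤ P g (c / 4) (c / 4) n x :=
          P_le (by linarith) ⟨fun y hy => hF.1 y (hF₁ hy), hs₁⟩
      _ ≤ _ := h2 n x
      _ ≤ _ := Nat.mul_le_mul_left _ (hC' n x hx y hy)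
  calc F.card ≤ (K₁ * (C * P g (c / 4) (c / 2) m z)) * F₁.card := h4
    _ ≤ (K₁ * (C * P g (c / 4) (c / 2) m z)) * (K₂ * (C * P g (c / 4) (c / 2) n y)) :=
      Nat.mul_le_mul_left _ h5
    _ = _ := by ring

/-- `P_eps` with a prescribed large time. -/
theorem P_eps' [CompactSpace X] {g : X ≃ₜ X} {c : ℝ} (h : LP g c) {ε ε' δ : ℝ} (hε : ε ≤ c)
    (hε' : 2 * ε' ≤ c) (hδ0 : 0 < δ) (hδ : 2 * δ ≤ c) {j : ℕ}
    (hj : c * (1 / 2) ^ j ≤ ε') :
    ∃ K : ℕ, 1 ≤ K ∧ ∀ (n : ℕ) (x : X),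
      P g ε δ n x ≤ K * P g ε' δ n (g.symm^[j] x) := by
  classical
  obtain ⟨K, hK1, hK⟩ := sep_short h hε' hδ0 hδ j
  refine ⟨K, hK1, fun n x => ?_⟩
  obtain ⟨F, hF, h1⟩ := P_att g ε hδ0 n x
  have h2 := sep_back hF.2 j
  have h3 : ∀ y ∈ F.image (g.symm^[j]), SR g.symm ε' (g.symm^[j] x) y := by
    intro y hy
    obtain ⟨z, hz, rfl⟩ := Finset.mem_image.mp hy
    exact sr_back h hj ((hF.1 z hz).mono hε)
  obtain ⟨F₁, h4, h5, h6⟩ := hK n _ _ h3 h2
  have hinj : Function.Injective (g.symm^[j]) := g.symm.injective.iterate j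
  rw [← h1, ← Finset.card_image_of_injective F hinj]
  exact h6.trans (Nat.mul_le_mul_left _ (P_le hδ0 ⟨fun y hy => h3 y (h4 hy), h5⟩))

/-- Heteroclinic connections from a minimal repeller spread over the repeller. -/
theorem exit_bas [CompactSpace X] {g : X ≃ₜ X} {c : ℝ} (h : LP g c) {R A : Set X}
    (hR : MinAtt g.symm R) (hA : IsAtt g A)
    (hcon : ∃ r ∈ R, ∃ w, WS g.symm r w ∧ w ∈ Bas g A) {ε : ℝ} (hε : 0 < ε) {v : X}
    (hv : v ∈ R) : ∃ w, SR g.symm ε v w ∧ w ∈ Bas g A := by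
  have hc := h.c_pos
  obtain ⟨r₀, hr₀, w₀, hw₀, hwA⟩ := hcon
  set κ := min (ε / 4) (c / 2) with hκ
  have hκ0 : 0 < κ := lt_min (by linarith) (by linarith)
  have hκ1 : κ ≤ ε / 4 := min_le_left _ _
  have hκ2 : κ ≤ c / 2 := min_le_right _ _
  obtain ⟨m, hm⟩ := hw₀.eventually_lt hκ0
  set r₁ := g.symm^[m] r₀ with hr₁
  set w₁ := g.symm^[m] w₀ with hw₁
  have hr₁R : r₁ ∈ R := (inv_iter hR.1.inv m r₀).mpr hr₀
  have hw₁A : w₁ ∈ Bas g A := bas_of_iter hA.inv (n := m) (by rw [hw₁, iterR]; exact hwA)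
  have h1 : SR g.symm κ r₁ w₁ := by
    intro k
    rw [hr₁, hw₁, ← Function.iterate_add_apply, ← Function.iterate_add_apply]
    exact (hm (k + m) (by omega)).le
  obtain ⟨δ, hδ, hh⟩ := hol h hκ0
  obtain ⟨J, z, hz1, hz2⟩ := conn h hR hv (ε := κ) (η := δ / 2) hκ0 (half_pos hδ) hr₁R
  have h2 : dist r₁ (g^[J] z) < δ := by
    have := hz2 0
    simp only [Function.iterate_zero, id] at this
    linarith
  obtain ⟨w₂, h3, h4⟩ := hh κ (by linarith) r₁ (g^[J] z) w₁ h2 h1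
  have hw₂ : w₂ ∈ Bas g A := by
    obtain ⟨a, ha, hwa⟩ := hw₁A
    exact ⟨a, ha, (WS.of_SR (h.cS _ _ (h3.mono (by linarith)))).symm'.trans hwa⟩
  refine ⟨g.symm^[J] w₂, fun k => ?_, bas_of_iter hA.inv (n := J) (by rw [iterR]; exact hw₂)⟩
  have h5 := h4 (k + J)
  rw [Function.iterate_add_apply, iterL, Function.iterate_add_apply] at h5
  have h6 := hz1 k
  have := dist_triangle (g.symm^[k] v) (g.symm^[k] z) (g.symm^[k] (g.symm^[J] w₂))
  linarith

/-- Uniform version. -/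
theorem exit_bas_unif [CompactSpace X] {g : X ≃ₜ X} {c : ℝ} (h : LP g c) {R A : Set X}
    (hR : MinAtt g.symm R) (hA : IsAtt g A)
    (hcon : ∃ r ∈ R, ∃ w, WS g.symm r w ∧ w ∈ Bas g A) {ε : ℝ} (hε : 0 < ε) (hεc : ε ≤ c)
    {δ₁ : ℝ} (hδ₁ : 0 < δ₁) :
    ∃ T : ℕ, ∀ v ∈ R, ∃ w, SR g.symm ε v w ∧ ∀ t ≥ T, ∃ a ∈ A, dist a (g^[t] w) < δ₁ := by
  have hc := h.c_pos
  have hK : IsCompact R := hR.1.closed.isCompact
  have key : ∃ T : ℕ, ∀ v ∈ R ∩ R, ∃ w, SR g.symm ε v w ∧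
      ∀ t ≥ T, ∃ a ∈ A, dist a (g^[t] w) < δ₁ := by
    refine hK.induction_on (p := fun S => ∃ T : ℕ, ∀ v ∈ S ∩ R, ∃ w, SR g.symm ε v w ∧
      ∀ t ≥ T, ∃ a ∈ A, dist a (g^[t] w) < δ₁) ?_ ?_ ?_ ?_
    · exact ⟨0, fun v hv => absurd hv.1 (notMem_empty v)⟩
    · rintro S T hST ⟨η, h1⟩
      exact ⟨η, fun v hv => h1 v ⟨hST hv.1, hv.2⟩⟩
    · rintro S T ⟨η, h1⟩ ⟨η', h2⟩
      refine ⟨max η η', fun v hv => ?_⟩
      rcases hv with ⟨hv | hv, hvR⟩
      · obtain ⟨w, h3, h4⟩ := h1 v ⟨hv, hvR⟩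
        exact ⟨w, h3, fun t ht => h4 t ((le_max_left _ _).trans ht)⟩
      · obtain ⟨w, h3, h4⟩ := h2 v ⟨hv, hvR⟩
        exact ⟨w, h3, fun t ht => h4 t ((le_max_right _ _).trans ht)⟩
    · intro v hv
      obtain ⟨w, hw1, a, ha, hwa⟩ := exit_bas h hR hA hcon (half_pos hε) hv
      obtain ⟨m, hm⟩ := hwa.eventually_lt (half_pos hδ₁)
      obtain ⟨j, hj⟩ := pw (c := c) (show 0 < δ₁ / 4 by linarith)
      obtain ⟨δ, hδ, hh⟩ := hol h (half_pos hε)
      refine ⟨ball v δ, mem_nhdsWithin_of_mem_nhds (ball_mem_nhds v hδ), max m j,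
        fun v' hv' => ?_⟩
      obtain ⟨w', h1, h2⟩ := hh (ε / 2) (by linarith) v v' w
        (by rw [dist_comm]; exact hv'.1) hw1
      refine ⟨w', h2.mono (by linarith), fun t ht => ⟨g^[t] a, (inv_iter hA.inv t a).mpr ha, ?_⟩⟩
      have h3 := hm t ((le_max_left _ _).trans ht)
      have h4 := h.cS _ _ (h1.mono (by linarith)) t
      have h5 := (pw_anti hc ((le_max_right m j).trans ht)).trans hj
      have := dist_triangle_left (g^[t] a) (g^[t] w') (g^[t] w)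
      linarith
  obtain ⟨T, hT⟩ := key
  exact ⟨T, fun v hv => hT v ⟨hv, hv⟩⟩

end Pool.Agent.X183.Gap
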