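import Pool.Agent.X183.Gap.B3

/-!
# The quadratic gap
-/

set_option autoImplicit false

open Filter Topology Set Metric

namespace Pool.Agent.X183.Gap

open Pool.Agent.H789R2.AN Pool.Agent.Y330.G

variable {X : Type*} [MetricSpace X]

/-- A proper minimal repeller and a minimal attractor are disjoint. -/
theorem disj_pair [CompactSpace X] [ConnectedSpace X] {g : X ≃ₜ X} {c : ℝ} (h : LP g c)
    {R A : Set X} (hR : MinAtt g.symm R) (hne : R ≠ univ) (hA : MinAtt g A) : Disjoint A R := by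
  rw [Set.disjoint_left]
  intro x hxA hxR
  have hc := h.c_pos
  have hRA : ∀ v ∈ R, v ∈ A := by
    intro v hv
    rw [← hA.1.closed.closure_eq, Metric.mem_closure_iff]
    intro η hη
    obtain ⟨J, z, h1, h2⟩ := conn h hR hxR hc (half_pos hη) hv
    have hz : z ∈ A := hA.1.sat x hxA z (WS.of_SR (h.cU _ _ h1))
    refine ⟨g^[J] z, (inv_iter hA.1.inv J z).mpr hz, ?_⟩
    have := h2 0
    simp only [Function.iterate_zero, id] at this
    linarith
  have hAR : ∀ v ∈ A, v ∈ R := by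
    intro v hv
    rw [← hR.1.closed.closure_eq, Metric.mem_closure_iff]
    intro η hη
    obtain ⟨J, z, h1, h2⟩ := conn (g := g.symm) h.symm (R := A) hA hxA hc (half_pos hη) hv
    have hz : z ∈ R := hR.1.sat x hxR z (WS.of_SR (h.cS _ _ h1))
    refine ⟨g.symm^[J] z, (inv_iter hR.1.inv J z).mpr hz, ?_⟩
    have := h2 0
    simp only [Function.iterate_zero, id] at this
    linarith
  obtain ⟨w, hw1, hw2⟩ := exit h hR hne hc hxR
  exact hw2 (hAR w (hA.1.sat x hxA w (WS.of_SR (h.cU _ _ hw1))))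

/-- If there is a proper attractor, there are a minimal repeller and a disjoint minimal attractor,
with a heteroclinic connection. -/
theorem exists_pair [CompactSpace X] [ConnectedSpace X] {g : X ≃ₜ X} {c : ℝ} (h : LP g c)
    {S : Set X} (hS : IsAtt g S) (hne : S ≠ univ) :
    ∃ R A, MinAtt g.symm R ∧ MinAtt g A ∧ Disjoint A R ∧
      ∃ r ∈ R, ∃ w, WS g.symm r w ∧ w ∈ Bas g A := by
  obtain ⟨z, hz⟩ := (ne_univ_iff_exists_notMem S).mp hne
  obtain ⟨w, hw, -⟩ := exists_repeller h hS hz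
  have hrep : IsAtt g.symm (Bas g S)ᶜ := by
    refine ⟨(isOpen_bas h hS).isClosed_compl, ⟨w, hw⟩, ?_, ?_⟩
    · intro x
      rw [mem_compl_iff, mem_compl_iff, not_iff_not]
      have := bas_map (g := g) (φ := g) (fun _ => rfl) hS.inv (g.symm x)
      rw [g.apply_symm_apply] at this
      exact this.symm
    · intro x hx y hxy hy
      obtain ⟨s, hs, h1⟩ := hy
      exact hx ⟨s, hs, WS.trans (g := g) hxy h1⟩
  obtain ⟨R, hRs, hR⟩ := exists_minAtt hrep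
  have hRne : R ≠ univ := by
    intro e
    obtain ⟨s, hs⟩ := hS.nonempty
    have : s ∈ (Bas g S)ᶜ := hRs (by rw [e]; trivial)
    exact this (subset_bas g S hs)
  set U : Set X := {y | ∃ r ∈ R, WS g.symm r y} with hU
  have hUinv : ∀ y, g y ∈ U ↔ y ∈ U := by
    intro y
    constructor
    · rintro ⟨r, hr, h1⟩
      refine ⟨g.symm r, (hR.1.inv r).mpr hr, ?_⟩
      have := h1.mapIter (φ := g.symm) (fun _ => rfl) 1
      simpa using this
    · rintro ⟨r, hr, h1⟩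
      refine ⟨g r, ?_, ?_⟩
      · rw [← hR.1.inv, g.symm_apply_apply]
        exact hr
      · rw [← WS.iter 1]
        simpa using h1
  have hatt : IsAtt g (closure U) := by
    refine ⟨isClosed_closure, ?_, ?_, closure_sat h ?_⟩
    · obtain ⟨r, hr⟩ := hR.1.nonempty
      exact ⟨r, subset_closure ⟨r, hr, WS.refl _ _⟩⟩
    · intro y
      have e1 : g ⁻¹' U = U := by
        ext y
        exact hUinv y
      have e2 := g.preimage_closure U
      rw [e1] at e2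
      rw [← mem_preimage, e2]
    · rintro x ⟨r, hr, h1⟩ y hxy
      exact ⟨r, hr, h1.trans hxy⟩
  obtain ⟨A, hAU, hA⟩ := exists_minAtt hatt
  refine ⟨R, A, hR, hA, disj_pair h hR hRne hA, ?_⟩
  obtain ⟨a, ha⟩ := hA.1.nonempty
  have h1 : (Bas g A ∩ U).Nonempty :=
    mem_closure_iff.mp (hAU ha) _ (isOpen_bas h hA.1) (subset_bas g A ha)
  obtain ⟨w', hw', r, hr, hrw⟩ := h1
  exact ⟨r, hr, w', hrw, hw'⟩

theorem P_mono_n' [CompactSpace X] {g : X ≃ₜ X} {ε δ : ℝ} (hδ : 0 < δ) {n n' : ℕ} (hn : n ≤ n')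
    (x : X) : P g ε δ n x ≤ P g ε δ n' x := by
  obtain ⟨F, hF, h1⟩ := P_att g ε hδ n x
  rw [← h1]
  exact P_le hδ ⟨hF.1, hF.2.mono le_rfl hn⟩

/-- Cauchy-Schwarz. -/
theorem cs_aux (m V M : ℕ) (x y : ℕ → ℕ) (hxy : ∀ i < m, V ≤ M * (x i * y i)) :
    m ^ 2 * V ≤ M * ((∑ i ∈ Finset.range m, x i) * ∑ i ∈ Finset.range m, y i) := by
  have h1 : (∑ i ∈ Finset.range m, √(x i : ℝ) * √(y i : ℝ)) ^ 2 ≤
      (∑ i ∈ Finset.range m, √(x i : ℝ) ^ 2) * ∑ i ∈ Finset.range m, √(y i : ℝ) ^ 2 :=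
    Finset.sum_mul_sq_le_sq_mul_sq _ _ _
  have e1 : ∀ i : ℕ, √(x i : ℝ) ^ 2 = (x i : ℝ) := fun i => Real.sq_sqrt (Nat.cast_nonneg _)
  have e2 : ∀ i : ℕ, √(y i : ℝ) ^ 2 = (y i : ℝ) := fun i => Real.sq_sqrt (Nat.cast_nonneg _)
  simp only [e1, e2] at h1
  have h2 : ∀ i ∈ Finset.range m, √(V : ℝ) ≤ √(M : ℝ) * (√(x i : ℝ) * √(y i : ℝ)) := by
    intro i hi
    rw [← Real.sqrt_mul (Nat.cast_nonneg _), ← Real.sqrt_mul (Nat.cast_nonneg _)]
    apply Real.sqrt_le_sqrt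
    exact_mod_cast hxy i (Finset.mem_range.mp hi)
  have h3 : m * √(V : ℝ) ≤ √(M : ℝ) * ∑ i ∈ Finset.range m, √(x i : ℝ) * √(y i : ℝ) := by
    rw [Finset.mul_sum]
    calc m * √(V : ℝ) = ∑ i ∈ Finset.range m, √(V : ℝ) := by
          rw [Finset.sum_const, Finset.card_range, nsmul_eq_mul]
      _ ≤ _ := Finset.sum_le_sum h2
  have h4 : (m * √(V : ℝ)) ^ 2 ≤ (√(M : ℝ) * ∑ i ∈ Finset.range m, √(x i : ℝ) * √(y i : ℝ)) ^ 2 :=
    pow_le_pow_left₀ (by positivity) h3 2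
  rw [mul_pow, mul_pow, Real.sq_sqrt (Nat.cast_nonneg _), Real.sq_sqrt (Nat.cast_nonneg _)] at h4
  have h5 : (m : ℝ) ^ 2 * V ≤ M * ((∑ i ∈ Finset.range m, (x i : ℝ)) *
      ∑ i ∈ Finset.range m, (y i : ℝ)) :=
    h4.trans (mul_le_mul_of_nonneg_left h1 (Nat.cast_nonneg _))
  exact_mod_cast h5

/-- The quadratic gap for maps with local product structure. -/
theorem gap_std [CompactSpace X] [Nonempty X] {g : X ≃ₜ X} {c : ℝ} (h : LP g c) {R A : Set X}
    (hR : MinAtt g.symm R) (hA : MinAtt g A) (hdisj : Disjoint A R)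
    (hcon : ∃ r ∈ R, ∃ w, WS g.symm r w ∧ w ∈ Bas g A) :
    ∃ C : ℕ, ∀ n, ∀ r ∈ R, ∀ r' ∈ R, ∀ a ∈ A, ∀ a' ∈ A,
      (n + 1) ^ 2 * (P g (c / 4) (c / 2) n a * P g.symm (c / 4) (c / 2) n r) ≤
        C * (P g (c / 4) (c / 2) n r' * P g.symm (c / 4) (c / 2) n a') := by
  have hc := h.c_pos
  have hδ : 0 < c / 2 := by linarith
  obtain ⟨r₀, hr₀⟩ := hR.1.nonempty
  obtain ⟨a₀, ha₀⟩ := hA.1.nonempty
  have hcon' : ∃ a ∈ A, ∃ w, WS g.symm.symm a w ∧ w ∈ Bas g.symm R := by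
    obtain ⟨r, hr, w, h1, z, hz, h2⟩ := hcon
    exact ⟨z, hz, w, h2.symm', r, hr, h1.symm'⟩
  obtain ⟨K, j₂, hI⟩ := rep_ineq2 h hR hA hdisj hcon hr₀ ha₀
  obtain ⟨K', j₂', hII⟩ := rep_ineq2 (g := g.symm) h.symm (R := A) (A := R) hA hR hdisj.symm hcon'
    ha₀ hr₀
  obtain ⟨Kp, hp⟩ := submult_att h hA
  obtain ⟨Kq, hq⟩ := submult_att h.symm hR
  obtain ⟨δ₁, hδ₁, C₁, hC₁⟩ := growth_near h hA
  obtain ⟨δ₂, hδ₂, C₂, hC₂⟩ := growth_near h.symm hR
  obtain ⟨C₃, hC₃⟩ := growth_rep h hR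
  obtain ⟨C₄, hC₄⟩ := growth_rep (g := g.symm) h.symm (R := A) hA
  set p : ℕ → ℕ := fun n => P g (c / 4) (c / 2) n a₀ with hpdef
  set q : ℕ → ℕ := fun n => P g.symm (c / 4) (c / 2) n r₀ with hqdef
  set j := max (max j₂ j₂') 1 with hj
  have hj1 : 1 ≤ j := le_max_right _ _
  -- the inequality at the two points
  have main : ∀ n, (n + 1) ^ 2 * (p n * q n) ≤
      (4 * j ^ 2 * (Kp * Kq) * (K * K') + j ^ 2 * (p j * q j)) *
        (P g (c / 4) (c / 2) n r₀ * P g.symm (c / 4) (c / 2) n a₀) := by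
    intro n
    have hP1 : 1 ≤ P g (c / 4) (c / 2) n r₀ := one_le_P g (by linarith) hδ n r₀
    have hP2 : 1 ≤ P g.symm (c / 4) (c / 2) n a₀ := one_le_P g.symm (by linarith) hδ n a₀
    have hPP : 1 ≤ P g (c / 4) (c / 2) n r₀ * P g.symm (c / 4) (c / 2) n a₀ :=
      Nat.one_le_iff_ne_zero.mpr (Nat.mul_ne_zero (by omega) (by omega))
    rcases lt_or_ge n j with hn | hn
    · have h1 : p n ≤ p j := P_mono_n' hδ hn.le a₀
      have h2 : q n ≤ q j := P_mono_n' hδ hn.le r₀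
      calc (n + 1) ^ 2 * (p n * q n) ≤ j ^ 2 * (p j * q j) :=
            Nat.mul_le_mul (Nat.pow_le_pow_left (by omega) 2) (Nat.mul_le_mul h1 h2)
        _ ≤ (4 * j ^ 2 * (Kp * Kq) * (K * K') + j ^ 2 * (p j * q j)) * 1 := by omega
        _ ≤ _ := Nat.mul_le_mul_left _ hPP
    · set m := n / j with hm
      have hm1 : 1 ≤ m := (Nat.one_le_div_iff (by omega)).mpr hn
      have hmn : j * m ≤ n := Nat.mul_div_le n j
      have hnm : n + 1 ≤ j * (m + 1) := by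
        have := Nat.lt_mul_div_succ n (show 0 < j by omega)
        simpa [hm] using this
      have h1 := hI j ((le_max_left _ _).trans (le_max_left _ _)) m n hmn
      have h2 := hII j ((le_max_right _ _).trans (le_max_left _ _)) m n hmn
      have h3 := cs_aux m (p n * q n) (Kp * Kq)
        (fun i => P g.symm (c / 4) (c / 2) (j * (i + 1)) r₀ *
          P g (c / 4) (c / 2) (n - j * (i + 1)) a₀)
        (fun i => P g.symm.symm (c / 4) (c / 2) (j * (i + 1)) a₀ *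
          P g.symm (c / 4) (c / 2) (n - j * (i + 1)) r₀) (by
          intro i hi
          have hi' : j * (i + 1) ≤ n := (Nat.mul_le_mul_left j hi).trans hmn
          have e : j * (i + 1) + (n - j * (i + 1)) = n := by omega
          have h4 := hp (j * (i + 1)) (n - j * (i + 1)) a₀ ha₀ a₀ ha₀ a₀ ha₀
          have h5 := hq (j * (i + 1)) (n - j * (i + 1)) r₀ hr₀ r₀ hr₀ r₀ hr₀
          rw [e] at h4 h5
          calc p n * q n ≤ _ := Nat.mul_le_mul h4 h5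
            _ = Kp * Kq * (P g.symm (c / 4) (c / 2) (j * (i + 1)) r₀ *
                P g (c / 4) (c / 2) (n - j * (i + 1)) a₀ *
                (P g (c / 4) (c / 2) (j * (i + 1)) a₀ *
                P g.symm (c / 4) (c / 2) (n - j * (i + 1)) r₀)) := by ring
            _ = _ := rfl)
      have h4 : (n + 1) ^ 2 ≤ 4 * j ^ 2 * m ^ 2 := by
        calc (n + 1) ^ 2 ≤ (j * (m + 1)) ^ 2 := Nat.pow_le_pow_left hnm 2
          _ ≤ (j * (2 * m)) ^ 2 := Nat.pow_le_pow_left (Nat.mul_le_mul_left _ (by omega)) 2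
          _ = _ := by ring
      calc (n + 1) ^ 2 * (p n * q n) ≤ 4 * j ^ 2 * m ^ 2 * (p n * q n) :=
            Nat.mul_le_mul_right _ h4
        _ = 4 * j ^ 2 * (m ^ 2 * (p n * q n)) := by ring
        _ ≤ 4 * j ^ 2 * (Kp * Kq * ((K * P g (c / 4) (c / 2) n r₀) *
              (K' * P g.symm (c / 4) (c / 2) n a₀))) :=
            Nat.mul_le_mul_left _ (h3.trans (Nat.mul_le_mul_left _ (Nat.mul_le_mul h1 h2)))
        _ = (4 * j ^ 2 * (Kp * Kq) * (K * K')) *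
              (P g (c / 4) (c / 2) n r₀ * P g.symm (c / 4) (c / 2) n a₀) := by ring
        _ ≤ _ := Nat.mul_le_mul_right _ (Nat.le_add_right _ _)
  set D := 4 * j ^ 2 * (Kp * Kq) * (K * K') + j ^ 2 * (p j * q j) with hD
  refine ⟨C₁ * C₂ * D * (C₃ * C₄), fun n r hr r' hr' a ha a' ha' => ?_⟩
  have h1 := hC₁ n a ha a₀ (near_of_mem hδ₁ ha₀)
  have h2 := hC₂ n r hr r₀ (near_of_mem hδ₂ hr₀)
  have h3 := hC₃ n r₀ hr₀ r' hr'
  have h4 := hC₄ n a₀ ha₀ a' ha'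
  calc (n + 1) ^ 2 * (P g (c / 4) (c / 2) n a * P g.symm (c / 4) (c / 2) n r)
      ≤ (n + 1) ^ 2 * ((C₁ * p n) * (C₂ * q n)) := Nat.mul_le_mul_left _ (Nat.mul_le_mul h1 h2)
    _ = C₁ * C₂ * ((n + 1) ^ 2 * (p n * q n)) := by ring
    _ ≤ C₁ * C₂ * (D * (P g (c / 4) (c / 2) n r₀ * P g.symm (c / 4) (c / 2) n a₀)) :=
        Nat.mul_le_mul_left _ (main n)
    _ ≤ C₁ * C₂ * (D * ((C₃ * P g (c / 4) (c / 2) n r') *
          (C₄ * P g.symm (c / 4) (c / 2) n a'))) :=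
        Nat.mul_le_mul_left _ (Nat.mul_le_mul_left _ (Nat.mul_le_mul h3 h4))
    _ = _ := by ring

end Pool.Agent.X183.Gap
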