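import Pool.Agent.X183.Gap.B4

/-!
# The quadratic gap for Anosov diffeomorphisms
-/

set_option autoImplicit false
set_option linter.unusedSectionVars false

open Filter Topology Set Metric
open scoped Manifold ContDiff

namespace Pool.Agent.X183.Gap

open Pool.Agent.H789R2.AN Pool.Agent.Y330.G Pool.Agent.H721R2

section two

variable {X Y : Type*} [MetricSpace X] [CompactSpace X] [MetricSpace Y] [CompactSpace Y]

/-- Comparison of the growth for `f` at small scales with the growth of the power. -/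
theorem cmp2 [Nonempty X] {φ : X ≃ₜ Y} {f : X ≃ₜ X} {f' : Y ≃ₜ Y} (hφ : ∀ x, φ (f x) = f' (φ x))
    {N : ℕ} (hN : 1 ≤ N) {c : ℝ} (h : LP (iterHomeo f' N) c) :
    ∃ ρ > 0, ∀ ε > 0, ε ≤ ρ → ∀ δ > 0, δ ≤ ρ → ∃ (K j : ℕ),
      (∀ n x, P f ε δ n x ≤ K * P (iterHomeo f' N) (c / 4) (c / 2) (n / N) (φ x)) ∧
      ∀ n x, P (iterHomeo f' N) (c / 4) (c / 2) (n / N) ((iterHomeo f' N)^[j] (φ x)) ≤
        K * P f ε δ n x := by
  have hc := h.c_pos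
  obtain ⟨r, hr, hr1⟩ := one_uc φ (show 0 < c / 4 by linarith)
  refine ⟨r, hr, fun ε hε0 hε δ hδ0 hδ => ?_⟩
  have hδ1 : ∀ a b : X, dist a b ≤ δ → dist (φ a) (φ b) ≤ c / 2 := fun a b hab =>
    (hr1 a b (hab.trans hδ)).trans (by linarith)
  have hε1 : ∀ a b : X, dist a b ≤ ε → dist (φ a) (φ b) ≤ c / 4 := fun a b hab =>
    hr1 a b (hab.trans hε)
  obtain ⟨ε', hε'0, hA⟩ := cmpA hφ hN hδ0 hδ1 hε0
  obtain ⟨δ', hδ'0, hB⟩ := cmpB hφ hN hε1 hδ0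
  have hA' : ∀ (m : ℕ) (x : X), P (iterHomeo f' N) (min ε' (c / 4)) (c / 2) m (φ x) ≤
      P f ε δ (N * m) x := by
    intro m x
    refine le_trans ?_ (hA m x)
    obtain ⟨F, hF, h1⟩ := P_att (iterHomeo f' N) (min ε' (c / 4)) (show 0 < c / 2 by linarith) m
      (φ x)
    rw [← h1]
    exact P_le (by linarith) ⟨fun y hy => (hF.1 y hy).mono (min_le_left _ _), hF.2⟩
  have hm0 : 0 < min ε' (c / 4) := lt_min hε'0 (by linarith)
  have hm1 : min ε' (c / 4) ≤ c / 4 := min_le_right _ _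
  obtain ⟨K₁, hK₁, j₁, h1⟩ := P_gen h (ε := c / 4) (ε' := min ε' (c / 4)) (δ := c / 2)
    (δ' := c / 2) (by linarith) hm0 (by linarith) (by linarith) (by linarith) (by linarith)
  obtain ⟨K₂, hK₂, h2⟩ := P_chg h (ε := c / 4) (δ := δ') (δ' := c / 2) (by linarith) hδ'0
    (by linarith) (by linarith)
  refine ⟨K₁ * K₂, j₁, fun n x => ?_, fun n x => ?_⟩
  · calc P f ε δ n x ≤ _ := hB n x
      _ ≤ K₂ * _ := h2 (n / N) (φ x)
      _ ≤ (K₁ * K₂) * _ := Nat.mul_le_mul_right _ (Nat.le_mul_of_pos_left _ hK₁)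
  · have h6 := h1 (n / N) ((iterHomeo f' N)^[j₁] (φ x))
    rw [iterL] at h6
    have h7 := hA' (n / N) x
    have h8 := P_mono_n' (g := f) (ε := ε) hδ0 (Nat.mul_div_le n N) x
    calc _ ≤ _ := h6
      _ ≤ K₁ * _ := Nat.mul_le_mul_left _ (h7.trans h8)
      _ ≤ (K₁ * K₂) * _ := Nat.mul_le_mul_right _ (Nat.le_mul_of_pos_right _ hK₂)

theorem tr_conj {φ : X ≃ₜ Y} {f : X ≃ₜ X} {f' : Y ≃ₜ Y} (hφ : ∀ x, φ (f x) = f' (φ x))
    (ht : TopTransitive (f' : Y → Y)) : TopTransitive (f : X → X) := by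
  intro U V hU hUn hV hVn
  obtain ⟨n, _, ⟨x, hx, rfl⟩, hy⟩ := ht (φ.symm ⁻¹' U) (φ.symm ⁻¹' V)
    (hU.preimage φ.symm.continuous) (hUn.preimage φ.symm.surjective)
    (hV.preimage φ.symm.continuous) (hVn.preimage φ.symm.surjective)
  refine ⟨n, φ.symm (f'^[n] x), ⟨φ.symm x, hx, ?_⟩, hy⟩
  apply φ.injective
  rw [conj_iter hφ, φ.apply_symm_apply, φ.apply_symm_apply]

/-- The quadratic gap. -/
theorem gap_abs [ConnectedSpace X] {φ : X ≃ₜ Y} {f : X ≃ₜ X} {f' : Y ≃ₜ Y}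
    (hφ : ∀ x, φ (f x) = f' (φ x)) {N : ℕ} (hN : 1 ≤ N) {c : ℝ} (h : LP (iterHomeo f' N) c)
    (hnt : ¬ TopTransitive (f : X → X)) :
    ∃ ρ > 0, ∀ ε > 0, ε ≤ ρ → ∀ δ > 0, δ ≤ ρ → ∃ (x y : X) (C : ℕ), ∀ n,
      (n + 1) ^ 2 * (P f ε δ n x * P f.symm ε δ n y) ≤
        C * (P f ε δ n y * P f.symm ε δ n x) := by
  have hY : ConnectedSpace Y := φ.surjective.connectedSpace φ.continuous
  have h' : LP (iterHomeo f'.symm N) c := by
    rw [← ith_symm]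
    exact h.symm
  have hnt' : ¬ ∀ S, IsAtt (iterHomeo f' N) S → S = univ := fun hS =>
    hnt (tr_conj hφ ((trans_iff hN h).mpr hS))
  push Not at hnt'
  obtain ⟨S, hS, hSne⟩ := hnt'
  obtain ⟨R, A, hR, hA, hdisj, hcon⟩ := exists_pair h hS hSne
  obtain ⟨C, hC⟩ := gap_std h hR hA hdisj hcon
  obtain ⟨ρ₁, hρ₁, h1⟩ := cmp2 hφ hN h
  obtain ⟨ρ₂, hρ₂, h2⟩ := cmp2 (φ := φ) (f := f.symm) (f' := f'.symm) (conj_symm hφ) hN h'
  refine ⟨min ρ₁ ρ₂, lt_min hρ₁ hρ₂, fun ε hε0 hε δ hδ0 hδ => ?_⟩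
  obtain ⟨K₁, j₁, hu1, hl1⟩ := h1 ε hε0 (hε.trans (min_le_left _ _)) δ hδ0
    (hδ.trans (min_le_left _ _))
  obtain ⟨K₂, j₂, hu2, hl2⟩ := h2 ε hε0 (hε.trans (min_le_right _ _)) δ hδ0
    (hδ.trans (min_le_right _ _))
  obtain ⟨a, ha⟩ := hA.1.nonempty
  obtain ⟨r, hr⟩ := hR.1.nonempty
  have e : iterHomeo f'.symm N = (iterHomeo f' N).symm := (ith_symm f' N).symm
  rw [e] at hu2 hl2
  set g := iterHomeo f' N with hg
  refine ⟨φ.symm a, φ.symm r, N ^ 2 * (K₁ * K₂ * (C * (K₁ * K₂))), fun n => ?_⟩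
  have ha' : g.symm^[j₂] a ∈ A := (inv_iter (inv_symm hA.1.inv) j₂ a).mpr ha
  have hr' : g^[j₁] r ∈ R := (inv_iter (fun x => by
    rw [← hR.1.inv (g x), g.symm_apply_apply]) j₁ r).mpr hr
  have h3 := hu1 n (φ.symm a)
  have h4 := hu2 n (φ.symm r)
  have h5 := hl1 n (φ.symm r)
  have h6 := hl2 n (φ.symm a)
  rw [φ.apply_symm_apply] at h3 h4 h5 h6
  have h7 := hC (n / N) r hr _ hr' a ha _ ha'
  have h8 : n + 1 ≤ N * (n / N + 1) := Nat.lt_mul_div_succ n (by omega)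
  calc (n + 1) ^ 2 * (P f ε δ n (φ.symm a) * P f.symm ε δ n (φ.symm r))
      ≤ (N * (n / N + 1)) ^ 2 * ((K₁ * P g (c / 4) (c / 2) (n / N) a) *
          (K₂ * P g.symm (c / 4) (c / 2) (n / N) r)) :=
        Nat.mul_le_mul (Nat.pow_le_pow_left h8 2) (Nat.mul_le_mul h3 h4)
    _ = N ^ 2 * (K₁ * K₂ * ((n / N + 1) ^ 2 * (P g (c / 4) (c / 2) (n / N) a *
          P g.symm (c / 4) (c / 2) (n / N) r))) := by ring
    _ ≤ N ^ 2 * (K₁ * K₂ * (C * ((K₁ * P f ε δ n (φ.symm r)) *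
          (K₂ * P f.symm ε δ n (φ.symm a))))) := by
        refine Nat.mul_le_mul_left _ (Nat.mul_le_mul_left _ (h7.trans ?_))
        exact Nat.mul_le_mul_left _ (Nat.mul_le_mul h5 h6)
    _ = _ := by ring

end two

variable {E : Type*} [NormedAddCommGroup E] [NormedSpace ℝ E] [FiniteDimensional ℝ E]

/-- **Transitivity and growth.** -/
theorem man_gap {M : Type*} [MetricSpace M] [CompactSpace M] [ConnectedSpace M]
    [ChartedSpace E M] [IsManifold 𝓘(ℝ, E) ∞ M] (f : Diffeomorph 𝓘(ℝ, E) 𝓘(ℝ, E) M M 1)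
    (Es Eu : ∀ x : M, Submodule ℝ (TangentSpace 𝓘(ℝ, E) x)) (hA : IsAnosov f Es Eu) :
    ∃ ρ > 0, ∀ ε > 0, ε ≤ ρ → ∀ δ > 0, δ ≤ ρ →
      List.TFAE [TopTransitive f,
        ∃ C : ℕ, ∀ n x y, P f.toHomeomorph ε δ n x ≤ C * P f.toHomeomorph ε δ n y ∧
          P f.toHomeomorph.symm ε δ n x ≤ C * P f.toHomeomorph.symm ε δ n y,
        ∀ x y, ∃ C : ℕ, ∀ n, P f.toHomeomorph ε δ n y * P f.toHomeomorph.symm ε δ n x ≤
          C * (P f.toHomeomorph ε δ n x * P f.toHomeomorph.symm ε δ n y),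
        ∀ x y, ∀ C : ℕ, ∃ n : ℕ, C * (P f.toHomeomorph ε δ n y * P f.toHomeomorph.symm ε δ n x) <
          (n + 1) ^ 2 * (P f.toHomeomorph ε δ n x * P f.toHomeomorph.symm ε δ n y)] := by
  obtain ⟨ρ₀, hρ₀, h0⟩ := man_growth f Es Eu hA
  have hgap : ∃ ρ > 0, ∀ ε > 0, ε ≤ ρ → ∀ δ > 0, δ ≤ ρ → ¬ TopTransitive f →
      ∃ (x y : M) (C : ℕ), ∀ n, (n + 1) ^ 2 * (P f.toHomeomorph ε δ n x *
        P f.toHomeomorph.symm ε δ n y) ≤
        C * (P f.toHomeomorph ε δ n y * P f.toHomeomorph.symm ε δ n x) := by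
    by_cases ht : TopTransitive f
    · exact ⟨1, one_pos, fun _ _ _ _ _ _ h => absurd ht h⟩
    · obtain ⟨Y, iY, cY, φ, f', N, c, hφ, hN, hc⟩ := exists_model f Es Eu hA
      obtain ⟨ρ, hρ, h1⟩ := gap_abs (f := f.toHomeomorph) hφ hN hc ht
      exact ⟨ρ, hρ, fun ε hε0 hε δ hδ0 hδ _ => h1 ε hε0 hε δ hδ0 hδ⟩
  obtain ⟨ρ₁, hρ₁, h1⟩ := hgap
  refine ⟨min ρ₀ ρ₁, lt_min hρ₀ hρ₁, fun ε hε0 hε δ hδ0 hδ => ?_⟩
  have hone : ∀ (g : M ≃ₜ M) n x, 1 ≤ P g ε δ n x := fun g n x => one_le_P g hε0.le hδ0 n x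
  tfae_have 1 → 2 := by
    intro ht
    obtain ⟨⟨C, hC⟩, C', hC'⟩ := (h0 ε hε0 (hε.trans (min_le_left _ _)) δ hδ0
      (hδ.trans (min_le_left _ _))).mp ht
    exact ⟨C + C', fun n x y => ⟨(hC n x y).trans (Nat.mul_le_mul_right _ (by omega)),
      (hC' n x y).trans (Nat.mul_le_mul_right _ (by omega))⟩⟩
  tfae_have 2 → 3 := by
    rintro ⟨C, hC⟩ x y
    refine ⟨C * C, fun n => ?_⟩
    calc _ ≤ (C * P f.toHomeomorph ε δ n x) * (C * P f.toHomeomorph.symm ε δ n y) :=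
          Nat.mul_le_mul (hC n y x).1 (hC n x y).2
      _ = _ := by ring
  tfae_have 3 → 4 := by
    intro H x y C
    obtain ⟨C₃, h3⟩ := H x y
    refine ⟨C * C₃, ?_⟩
    have h4 : 0 < P f.toHomeomorph ε δ (C * C₃) x * P f.toHomeomorph.symm ε δ (C * C₃) y :=
      Nat.mul_pos (hone _ _ _) (hone _ _ _)
    refine lt_of_le_of_lt (Nat.mul_le_mul_left C (h3 (C * C₃))) ?_
    rw [← mul_assoc]
    refine Nat.mul_lt_mul_of_pos_right ?_ h4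
    nlinarith
  tfae_have 4 → 1 := by
    intro H
    by_contra hnt
    obtain ⟨x, y, C, h3⟩ := h1 ε hε0 (hε.trans (min_le_right _ _)) δ hδ0
      (hδ.trans (min_le_right _ _)) hnt
    obtain ⟨n, hn⟩ := H x y C
    exact absurd (h3 n) (not_le.mpr hn)
  tfae_finish

end Pool.Agent.X183.Gap
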